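import Pool.Agent.Helper69.FF.St

/-!
# Project FF (MP_d684b1_an), module E1: selection, square summable case
-/

set_option autoImplicit false

open scoped BigOperators

namespace Pool.Agent.Helper15.FF

open _root_.FF _root_.DV

/-- Sum over a block grid inside `Fin N`. -/
theorem grid_E1 (N s B : ℕ) (h : s * B ≤ N) (f : Fin N → ℝ) (hf : ∀ i, 0 ≤ f i) :
    ∑ l : Fin s, ∑ b : Fin B, f (Fin.castLE h (finProdFinEquiv (l, b))) ≤ ∑ i, f i := by
  rw [← Fintype.sum_prod_type' (f := fun l b => f (Fin.castLE h (finProdFinEquiv (l, b))))]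
  have hinj : Function.Injective (fun p : Fin s × Fin B => Fin.castLE h (finProdFinEquiv p)) := by
    intro a b hab
    exact finProdFinEquiv.injective (Fin.castLE_injective h hab)
  calc ∑ p : Fin s × Fin B, f (Fin.castLE h (finProdFinEquiv (p.1, p.2)))
      = ∑ i ∈ Finset.univ.map ⟨_, hinj⟩, f i := by
        rw [Finset.sum_map]
        rfl
    _ ≤ ∑ i, f i :=
        Finset.sum_le_sum_of_subset_of_nonneg (Finset.subset_univ _) (fun i _ _ => hf i)

/-- Module E1. -/
theorem hE1 (hMG : StMG) : StE1 := by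
  intro m N s B r w θ v hθ hB hsB hBθ hexp hw
  have hθ2 : 0 < θ ^ 2 := by positivity
  have hB0 : (0 : ℝ) < B := by exact_mod_cast hB
  set u : Fin s → Fin B → Fin N := fun l b => Fin.castLE hsB (finProdFinEquiv (l, b)) with hu
  -- the two families
  set g1 : Fin m → Fin s → Fin B → ℝ :=
    fun j l b => if |w j (u l b)| < θ then w j (u l b) ^ 2 / θ ^ 2 else 0 with hg1
  set g2 : Fin m → Fin s → Fin B → ℝ :=
    fun j l b => if θ ≤ |w j (u l b)| then 1 else 0 with hg2
  have hsum : ∀ j, ∑ l, ∑ b, w j (u l b) ^ 2 / θ ^ 2 ≤ 1 / θ ^ 2 := by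
    intro j
    have h1 := grid_E1 N s B hsB (fun i => w j i ^ 2 / θ ^ 2) (fun i => by positivity)
    refine h1.trans ?_
    rw [← Finset.sum_div]
    exact div_le_div_of_nonneg_right (hw j) hθ2.le
  have hcoef : 2 / (B : ℝ) * (1 / θ ^ 2) ≤ 1 := by
    rw [div_mul_div_comm, mul_one, div_le_one (by positivity)]
    rw [div_le_iff₀ hθ2] at hBθ
    linarith
  have hb1 : ∀ j l b, g1 j l b ≤ w j (u l b) ^ 2 / θ ^ 2 := by
    intro j l b
    simp only [hg1]
    split_ifs
    · exact le_rfl
    · positivity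
  have hb2 : ∀ j l b, g2 j l b ≤ w j (u l b) ^ 2 / θ ^ 2 := by
    intro j l b
    simp only [hg2]
    split_ifs with h
    · rw [le_div_iff₀ hθ2, one_mul, ← sq_abs (w j (u l b))]
      exact pow_le_pow_left₀ hθ.le h 2
    · positivity
  have hs1 : ∀ j, 2 / (B : ℝ) * ∑ l, ∑ b, g1 j l b ≤ 1 := by
    intro j
    refine le_trans ?_ hcoef
    apply mul_le_mul_of_nonneg_left _ (by positivity)
    exact (Finset.sum_le_sum fun l _ => Finset.sum_le_sum fun b _ => hb1 j l b).trans (hsum j)
  have hs2 : ∀ j, 2 / (B : ℝ) * ∑ l, ∑ b, g2 j l b ≤ 1 := by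
    intro j
    refine le_trans ?_ hcoef
    apply mul_le_mul_of_nonneg_left _ (by positivity)
    exact (Finset.sum_le_sum fun l _ => Finset.sum_le_sum fun b _ => hb2 j l b).trans (hsum j)
  obtain ⟨κ, hκ⟩ := hMG (Fin m ⊕ Fin m) s B hB (Sum.elim g1 g2)
    (Sum.elim (fun _ => v / θ ^ 2) (fun _ => (r : ℝ))) (by
      rintro (j | j) l b
      · simp only [Sum.elim_inl, hg1]
        split_ifs with h
        · refine ⟨by positivity, ?_⟩
          rw [div_le_one hθ2, ← sq_abs (w j (u l b))]
          exact pow_le_pow_left₀ (abs_nonneg _) h.le 2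
        · exact ⟨le_rfl, zero_le_one⟩
      · simp only [Sum.elim_inr, hg2]
        split_ifs
        · exact ⟨zero_le_one, le_rfl⟩
        · exact ⟨le_rfl, zero_le_one⟩) (by
      rw [Fintype.sum_sum_type]
      simp only [Sum.elim_inl, Sum.elim_inr]
      calc (∑ j : Fin m, Real.exp (-(v / θ ^ 2) + 2 / (B : ℝ) * ∑ l, ∑ b, g1 j l b)) +
            ∑ j : Fin m, Real.exp (-(r : ℝ) + 2 / (B : ℝ) * ∑ l, ∑ b, g2 j l b)
          ≤ (∑ _j : Fin m, Real.exp (-(v / θ ^ 2) + 1)) + ∑ _j : Fin m, Real.exp (-(r : ℝ) + 1) := by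
            apply add_le_add
            · apply Finset.sum_le_sum
              intro j _
              apply Real.exp_le_exp.mpr
              have := hs1 j
              linarith
            · apply Finset.sum_le_sum
              intro j _
              apply Real.exp_le_exp.mpr
              have := hs2 j
              linarith
        _ = (m : ℝ) * (Real.exp (-(v / θ ^ 2) + 1) + Real.exp (-(r : ℝ) + 1)) := by
            rw [Finset.sum_const, Finset.sum_const, Finset.card_univ, Fintype.card_fin,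
              nsmul_eq_mul, nsmul_eq_mul]
            ring
        _ < 1 := hexp)
  refine ⟨fun l => u l (κ l), fun j => ⟨?_, ?_⟩⟩
  · have h := hκ (Sum.inr j)
    simp only [Sum.elim_inr, hg2] at h
    rw [Finset.sum_boole] at h
    have h' : (Finset.univ.filter fun l => θ ≤ |w j (u l (κ l))|).card < r := by exact_mod_cast h
    exact h'.le
  · have h := hκ (Sum.inl j)
    simp only [Sum.elim_inl, hg1] at h
    have h2 : ∑ l, (if |w j (u l (κ l))| < θ then w j (u l (κ l)) ^ 2 / θ ^ 2 else 0) =
        (∑ l, (if |w j (u l (κ l))| < θ then w j (u l (κ l)) ^ 2 else 0)) / θ ^ 2 := by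
      rw [Finset.sum_div]
      apply Finset.sum_congr rfl
      intro l _
      split_ifs
      · rfl
      · simp
    rw [h2, div_lt_div_iff_of_pos_right hθ2] at h
    exact h.le

end Pool.Agent.Helper15.FF
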